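import Pool.Agent.Helper61.FN.GoalsD

/-!
# Project FN, packet FN-ULT: transfer to the hyperreals
-/

set_option autoImplicit false

namespace Pool.Agent.Helper64.FN

open Filter Pool.Agent.Helper61.FN

/-- The ring homomorphism `sequence ↦ germ`. -/
noncomputable def phi : (ℕ → ℝ) →+* Hyperreal where
  toFun := Hyperreal.ofSeq
  map_one' := rfl
  map_mul' _ _ := rfl
  map_zero' := rfl
  map_add' _ _ := rfl

theorem phi_apply (f : ℕ → ℝ) : Hyperreal.ofSeq f = phi f := rfl

theorem phi_eq {f g : ℕ → ℝ} : phi f = phi g ↔ ∀ᶠ i in (hyperfilter ℕ : Filter ℕ), f i = g i :=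
  Germ.coe_eq

theorem phi_inv (f : ℕ → ℝ) : phi f⁻¹ = (phi f)⁻¹ := rfl

theorem phi_zpow (f : ℕ → ℝ) (n : ℤ) : phi (f ^ n) = phi f ^ n := by
  cases n with
  | ofNat n => simp
  | negSucc n => simp only [zpow_negSucc, phi_inv, map_pow]

theorem phi_mon {E : Type} [Fintype E] (x : ℕ → E → ℝ) (m : E → ℤ) :
    mon (fun e ↦ phi fun i ↦ x i e) m = phi fun i ↦ mon (x i) m := by
  have h : (fun i ↦ mon (x i) m) = ∏ e, (fun i ↦ x i e) ^ m e := by
    funext i
    simp [mon]
  rw [h, map_prod]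
  simp only [mon, phi_zpow]

theorem goalULT : G_ULT := by
  intro E J _ _ m c d lam h
  have hz : ∀ i : ℕ, ∃ f : Fin i → E → ℝ, Function.Injective f ∧
      ∀ j, f j ∈ Sols m (c i) (d i) (lam i) := by
    intro i
    obtain ⟨t, ht, hc⟩ := Set.exists_subset_encard_eq (h i)
    have hf : t.Finite := Set.finite_of_encard_eq_coe hc
    have : Finite t := hf
    have hn : Nat.card t = i := by
      rw [Nat.card_coe_set_eq, Set.ncard_def, hc]
      rfl
    refine ⟨fun j ↦ ((Finite.equivFinOfCardEq hn).symm j : t), ?_, fun j ↦ ht (Subtype.coe_prop _)⟩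
    exact Subtype.val_injective.comp (Equiv.injective _)
  choose f hf hm using hz
  set z : ℕ → ℕ → E → ℝ := fun i j ↦ if h : j < i then f i ⟨j, h⟩ else 1 with hzd
  have hgt : ∀ j : ℕ, ∀ᶠ i in (hyperfilter ℕ : Filter ℕ), j < i := fun j ↦
    (eventually_gt_atTop j).filter_mono Nat.hyperfilter_le_atTop
  have hmem : ∀ j, ∀ᶠ i in (hyperfilter ℕ : Filter ℕ), z i j ∈ Sols m (c i) (d i) (lam i) := by
    intro j
    filter_upwards [hgt j] with i hi
    simp only [hzd, dif_pos hi]
    exact hm i _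
  have hne : ∀ j l, j ≠ l → ∀ᶠ i in (hyperfilter ℕ : Filter ℕ), z i j ≠ z i l := by
    intro j l hjl
    filter_upwards [hgt j, hgt l] with i hi hi'
    simp only [hzd, dif_pos hi, dif_pos hi']
    intro he
    exact hjl (Fin.mk.inj_iff.1 (hf i he))
  refine Set.infinite_of_injective_forall_mem (f := fun j e ↦ phi fun i ↦ z i j e) ?_ ?_
  · intro j l he
    by_contra hjl
    have h1 : ∀ e, ∀ᶠ i in (hyperfilter ℕ : Filter ℕ), z i j e = z i l e := fun e ↦
      phi_eq.1 (congrFun he e)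
    have h2 : ∀ᶠ i in (hyperfilter ℕ : Filter ℕ), ∀ e, z i j e = z i l e := eventually_all.2 h1
    obtain ⟨i, hi, hi'⟩ := (h2.and (hne j l hjl)).exists
    exact hi' (funext hi)
  · intro j
    refine ⟨fun e he ↦ ?_, fun e ↦ ?_⟩
    · rw [← map_zero phi, phi_eq] at he
      obtain ⟨i, hi, hi'⟩ := (he.and (hmem j)).exists
      exact hi'.1 e hi
    · simp only [phi_mon, phi_apply]
      rw [← map_neg, ← map_mul]
      have hs : ∑ k, phi (fun i ↦ c i k) * (m k e : Hyperreal) * phi (fun i ↦ mon (z i j) (m k)) =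
          phi (∑ k, (fun i ↦ c i k) * ((m k e : ℤ) : ℕ → ℝ) * fun i ↦ mon (z i j) (m k)) := by
        rw [map_sum]
        simp only [map_mul, map_intCast]
      rw [hs, phi_eq]
      filter_upwards [hmem j] with i hi
      have := hi.2 e
      simpa using this

end Pool.Agent.Helper64.FN
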